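import Pool.Agent.V7H2.KS.Main5

/-!
# Birational sections with tame values are geometric, over every number field

`k` is a number field and `k0` a subfield with finitely many units (`ℚ` or an imaginary quadratic
field), `F` is an extension of `k`, `M` an algebraic extension of `F` and `s` a section of the map from
the automorphisms of `M` over `F` to the Galois group of `k`, given by a local point `p v` for every
finite place `v` of `k`. If `M` is algebraically closed these local points exist (Koenigsmann).

1. A function `x` is equal to the same element of `k` at all local points if `M` contains the `n`-th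
   roots of the `x - c i`, for `[k : k0]` different elements `c i` of `k0`, and the `x - c i` have tame
   values (for example: they are units at almost all of the local points, and never zero or infinite).
   For instance, the local points of an adelic section of the fundamental group of an open variety
   which is mapped by `x` to the line without the points `c i` and infinity.
2. If `F` is the function field of a curve and `M` contains the roots of all functions (for example
   the maximal geometrically metabelian extension) then the local points lie over one rational point
   of the curve if and only if this tameness condition holds for one nonconstant function `x`.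
3. If moreover `M` is closed under taking roots (for example algebraically closed, or the maximal
   geometrically prosolvable extension) then the section arises from a rational point, and from only
   one, if and only if this tameness condition holds for one nonconstant function `x`.
-/

set_option autoImplicit false

namespace Pool.Agent.Results.MP_8312c9_nt.AdelicSectionsH2

open IsDedekindDomain NumberField
open Pool.Agent.TH954 Pool.Agent.V7H2.KS

theorem result (k0 k F M B : Type) [Field k0] [NumberField k0] [Field k] [NumberField k]
    [Algebra k0 k] [Finite (𝓞 k0)ˣ] [Field F] [Field M] [Field B]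
    [Algebra k F] [Algebra F M] [Algebra k M] [Algebra k B] [IsScalarTower k F M]
    [Algebra.IsAlgebraic F M] [IsAlgClosure k B] (s : GalSection k F M B) :
    (IsAlgClosed M → ∀ v : HeightOneSpectrum (𝓞 k),
      ∃ p : Plc k M (AlgebraicClosure (v.adicCompletion k)), s.GivenBy (v.adicCompletion k) p) ∧
    ∀ p : (∀ v : HeightOneSpectrum (𝓞 k), Plc k M (AlgebraicClosure (v.adicCompletion k))),
      (∀ v, s.GivenBy (v.adicCompletion k) (p v)) →
      (∀ (x : F) (c : Fin (Module.finrank k0 k) → k0), Function.Injective c →
        (∀ i, HasRoots M (x - algebraMap k F (algebraMap k0 k (c i)))) →
        (∀ i, TameValues p (x - algebraMap k F (algebraMap k0 k (c i)))) →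
        ∃ b : k, ∀ v, (p v).val (algebraMap F M x)
          (algebraMap k (AlgebraicClosure (v.adicCompletion k)) b)) ∧
      ((∃ t : F, Transcendental k t ∧
          Algebra.IsAlgebraic (IntermediateField.adjoin k {t}) F) →
        ((∀ f : F, HasRoots M f) →
          ((∃! O : ValuationSubring F, RationalPlace k O ∧ LieOver p O) ↔ IsTame k0 F p)) ∧
        (RootClosed M →
          ((∃! O : ValuationSubring F, s.ArisesFrom O) ↔ IsTame k0 F p) ∧
          ∀ O : ValuationSubring F, s.ArisesFrom O → LieOver p O)) := by
  refine ⟨fun h v => ?_, fun p hp => ⟨fun x c hc hr hu => ?_, fun hF => ⟨fun hr => ⟨?_, ?_⟩,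
    fun hM => ⟨⟨?_, ?_⟩, fun O hO => ?_⟩⟩⟩⟩
  · have : IsAlgClosure F M := ⟨h, inferInstance⟩
    exact Pool.Agent.N890.KO.koenigsmann k v k F M B s
  · exact const_of_tame s p hp hc hr hu
  · rintro ⟨O, ⟨hO1, hO2⟩, -⟩
    exact tame_of_place hF hO1 hO2
  · rintro ⟨x, hx, c, hc, hu⟩
    exact place_of_tame hF hr s p hp hx hc hu
  · rintro ⟨O, hO, -⟩
    exact tame_of_ring hM hF s p hp hO
  · rintro ⟨x, hx, c, hc, hu⟩
    exact ring_of_tame hM hF s p hp hx hc hu
  · exact lieOver_of_arises hM s p hp hO

end Pool.Agent.Results.MP_8312c9_nt.AdelicSectionsH2
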