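import Pool.Agent.V7H8.QS.Form

/-!
# Birational sections preserve the anisotropy of quadratic forms

Let `k` be a field of characteristic different from 2, for instance a finitely generated field, and let
`F` be any extension field, for instance the function field of a curve or of a variety over `k`.  Let
`F'` be generated over `F` by the square roots of the elements of `F`, and `F''` by the square roots
of the elements of `F'`; `Gal(F''/F)` is the maximal quotient of the absolute Galois group of `F`
which is an extension of a group of exponent 2 by an abelian group of exponent 2 (the `ℤ/2`-metabelian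
quotient).

**Theorem.** (1) Let `E` be a Galois extension of `k` which contains the square roots of the elements
of `k`, and `M ⊇ F''` (for example the algebraic closures of `k` and `F`, or the maximal
`2`-extensions, or `k''` and `F''`).  If there is a section of `Gal(M/F) → Gal(E/k)`, then every
quadratic form over `k` with a nontrivial zero over `F` has a nontrivial zero over `k`.  So a curve
(or a variety of any dimension) over `k` with a rational map to an anisotropic quadric over `k`, of any
dimension, has no birational sections, not even for the `ℤ/2`-metabelian quotients.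

(2) Let `k` have characteristic zero, let `⟨a_1, …, a_n⟩` be an anisotropic diagonal form over `k`, and
let `U` be a set of valuation rings of `F` over `k` (for instance the local rings of an open subcurve
`U` of a curve with function field `F`) on which functions `x_i ∈ F`, not all `0`, with
`∑ a_i x_i² = 0` are regular and the partial sums `∑_(i ≤ j) a_i x_i²`, `1 ≤ j < n`, are units.  Then
already the fundamental group `π₁(U)`, a quotient of the absolute Galois group of `F`, has no section
over `G_k`.

(3) For `k` of characteristic zero and every extension `K` of `k` over which an anisotropic quadratic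
form over `k` becomes isotropic, the birational section conjecture holds for `K` (in the form of the
frozen statement S17615), since there are no sections at all.

For forms in two, three or four variables (quadrics of dimension at most 2) this is a statement on
elements of Brauer groups which vanish over `F`.  For quadrics of dimension at least 3 the obstruction
is not an abelian one: these quadrics have universal torsors, that is, their elementary obstruction
vanishes (compare Esnault, Wittenberg: On abelian birational sections).

Proof.  Let `s` be a section.  By Kummer theory every `z ∈ F`, `z ≠ 0`, is of the form `c w²` with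
`c ∈ k` and `w ∈ F'` fixed by `s`.  Let `∑ a_i x_i² = 0`; the partial sums are `u_j = c_j w_j²`, and
so `c_j / c_(j-1) = p² - d q²` with `d = - a_j / c_(j-1)` and `p, q` fixed by `s`.  If `d` is not a
square in `k`, one applies Kummer theory again, to the square root of `p + q √d` over the quadratic
extension `k(√d)`: `p + q √d = γ w²` with `γ ∈ k(√d)` and `w ∈ F''` fixed by the group of `k(√d)`, and
takes norms: `p² - d q² = N(γ) n²`, where `n` is fixed by `s` and algebraic over `k`, so `n ∈ k`.  It
follows that `c_j` is a value of the form `⟨c_(j-1), a_j⟩` over `k`, and by induction that it is a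
value of `⟨a_1, …, a_j⟩` over `k`.  For the last partial sum this gives a nontrivial zero over `k`.
-/

set_option autoImplicit false

namespace Pool.Agent.Results.MP_8312c9_nt.AnisotropicQuadricsH8

universe u v w x y

/-- The quadratic form `∑ A i j X i X j` with coefficients in `k` has a nontrivial zero over the
extension field `L`. -/
def HasZero {k : Type u} [Field k] (L : Type v) [Field L] [Algebra k L] {n : ℕ}
    (A : Matrix (Fin n) (Fin n) k) : Prop :=
  ∃ x : Fin n → L, x ≠ 0 ∧ ∑ i, ∑ j, algebraMap k L (A i j) * x i * x j = 0

section definitions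

/-- The field generated over `A` by the square roots in `Ω` of the elements of `A`. -/
noncomputable def roots (A : Type u) (Ω : Type v) [Field A] [Field Ω] [Algebra A Ω] :
    IntermediateField A Ω :=
  IntermediateField.adjoin A {x : Ω | x ^ 2 ∈ (algebraMap A Ω).range}

/-- The field generated over `A` by the square roots in `Ω` of the elements of `roots A Ω`. -/
noncomputable def roots2 (A : Type u) (Ω : Type v) [Field A] [Field Ω] [Algebra A Ω] :
    IntermediateField A Ω :=
  IntermediateField.adjoin A {x : Ω | x ^ 2 ∈ roots A Ω}

variable (k : Type u) (F : Type v) (Ω : Type w) [Field k] [Field F] [Field Ω] [Algebra k F]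
  [Algebra F Ω] [Algebra k Ω]

/-- The map `τ : M → M` acts as `σ : E → E` on the elements that the fields `E` and `M` have in
common when they are regarded as subfields of `Ω`. -/
def ActsAs {E M : Type*} [Field E] [Field M] [Algebra E Ω] [Algebra M Ω] (σ : E → E) (τ : M → M) :
    Prop :=
  ∀ (c : E) (z : M), algebraMap M Ω z = algebraMap E Ω c →
    algebraMap M Ω (τ z) = algebraMap E Ω (σ c)

/-- Let `k ⊆ E ⊆ Ω` and `F ⊆ M ⊆ Ω` be fields.  A section of `Gal(M/F) → Gal(E/k)`: a continuous
homomorphism from `Gal(E/k)` to `Gal(M/F)` such that the image of `σ` acts as `σ` on the elements of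
`E ∩ M`. -/
structure Splitting (E M : Type*) [Field E] [Field M] [Algebra k E] [Algebra F M] [Algebra E Ω]
    [Algebra M Ω] where
  /-- the homomorphism `Gal(E/k) → Gal(M/F)` -/
  toHom : (E ≃ₐ[k] E) →* (M ≃ₐ[F] M)
  cont : Continuous toHom
  compat : ∀ σ : E ≃ₐ[k] E, ActsAs Ω σ (toHom σ)

/-- The inertia group of the valuation ring `W` of `Ω`, as a subgroup of `Gal(Ω/F)`: the
automorphisms of `Ω` over `F` that map `W` onto itself and act as the identity on its residue
field. -/
noncomputable def inertia (W : ValuationSubring Ω) : Subgroup (Ω ≃ₐ[F] Ω) :=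
  (W.inertiaSubgroup F).map (W.decompositionSubgroup F).subtype

/-- `F_U`, for a set `U` of valuation rings of `F`: the elements of `Ω` fixed by the inertia groups
of all valuation rings `W` of `Ω` with `W ∩ F ∈ U`.  If `Ω` is an algebraic closure of a field `F`
of characteristic zero, this is the maximal extension of `F` in `Ω` unramified over `U`. -/
noncomputable def unramified (U : Set (ValuationSubring F)) : IntermediateField F Ω :=
  ⨅ W : {W : ValuationSubring Ω // W.comap (algebraMap F Ω) ∈ U},
    IntermediateField.fixedField (inertia F Ω W.1)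

/-- The sections of `π₁(U) = Gal(F_U/F) → G_k`: the continuous homomorphisms `s` from
`G_k = Gal(k̄/k)` to `Gal(F_U/F)`, where `k̄` is the algebraic closure of `k` in `Ω`, such that
`s(σ)` acts as `σ` on the elements of `k̄`. -/
def GaloisSection (U : Set (ValuationSubring F)) : Type w :=
  Splitting k F Ω (algebraicClosure k Ω) (unramified F Ω U)

end definitions

/-- (1) The general statement. -/
def GeneralStatement : Prop :=
  ∀ (k : Type u) (F : Type v) (Ω : Type w) [Field k] [Field F] [Field Ω] [Algebra k F]
    [Algebra F Ω] [Algebra k Ω] [IsScalarTower k F Ω] [IsAlgClosure F Ω], (2 : k) ≠ 0 →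
    ∀ (E : IntermediateField k Ω) [IsGalois k E] (M : IntermediateField F Ω), roots k Ω ≤ E →
    roots2 F Ω ≤ M → Nonempty (Splitting k F Ω E M) → ∀ (n : ℕ) (A : Matrix (Fin n) (Fin n) k),
    HasZero F A → HasZero k A

/-- The sum `∑ a i (x i)²` over the `i` smaller than `j`. -/
def partialSum {k : Type u} {F : Type v} [Field k] [Field F] [Algebra k F] {n : ℕ} (a : Fin n → k)
    (x : Fin n → F) (j : ℕ) : F :=
  ∑ i ∈ Finset.univ.filter (fun i : Fin n => i.val < j), algebraMap k F (a i) * x i ^ 2

/-- (2) The statement for open subcurves. -/
def OpenStatement : Prop :=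
  ∀ (k : Type u) (F : Type v) (Ω : Type w) [Field k] [Field F] [Field Ω] [Algebra k F]
    [Algebra F Ω] [Algebra k Ω] [IsScalarTower k F Ω] [IsAlgClosure F Ω] [CharZero k]
    (n : ℕ) (a : Fin n → k) (x : Fin n → F) (U : Set (ValuationSubring F)),
    x ≠ 0 → ∑ i, algebraMap k F (a i) * x i ^ 2 = 0 →
    (∀ O ∈ U, (∀ c : k, algebraMap k F c ∈ O) ∧ (∀ i, x i ∈ O) ∧
      ∀ j, 0 < j → j < n → partialSum a x j ≠ 0 ∧ partialSum a x j ∈ O ∧
        (partialSum a x j)⁻¹ ∈ O) →
    ¬ HasZero k (Matrix.diagonal a) → IsEmpty (GaloisSection k F Ω U)

/-- The continuous sections of `Gal(K) → Gal(k)`, for an extension `K` of `k`, as in the frozen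
statement. -/
def IsBirationalSection (k : Type u) (K : Type v) [Field k] [Field K] [Algebra k K]
    (s : (algebraicClosure k (AlgebraicClosure K) ≃ₐ[k] algebraicClosure k (AlgebraicClosure K)) →*
      (AlgebraicClosure K ≃ₐ[K] AlgebraicClosure K)) : Prop :=
  Continuous s ∧
  ∀ (g : algebraicClosure k (AlgebraicClosure K) ≃ₐ[k] algebraicClosure k (AlgebraicClosure K))
    (x : algebraicClosure k (AlgebraicClosure K)),
    s g (x : AlgebraicClosure K) = ((g x : algebraicClosure k (AlgebraicClosure K)) :
      AlgebraicClosure K)

/-- The assertion of the birational section conjecture for `K`, as in the frozen statement: every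
section fixes a valuation ring above exactly one rational place. -/
def ConjectureFor (k : Type u) (K : Type v) [Field k] [Field K] [Algebra k K] : Prop :=
  ∀ s, IsBirationalSection k K s → ∃! O : ValuationSubring K,
    O ≠ ⊤ ∧ (∀ c : k, algebraMap k K c ∈ O) ∧
    (∀ a ∈ O, ∃ c : k, O.valuation (a - algebraMap k K c) < 1) ∧
    ∃ W : ValuationSubring (AlgebraicClosure K),
      W.comap (algebraMap K (AlgebraicClosure K)) = O ∧
      ∀ (g : algebraicClosure k (AlgebraicClosure K) ≃ₐ[k] algebraicClosure k (AlgebraicClosure K))
        (x : AlgebraicClosure K), (s g x ∈ W ↔ x ∈ W)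

/-- (3) The statement on the birational section conjecture. -/
def ConjectureStatement : Prop :=
  ∀ (k : Type u) (K : Type v) [Field k] [Field K] [Algebra k K] [CharZero k]
    (n : ℕ) (A : Matrix (Fin n) (Fin n) k), HasZero K A → ¬ HasZero k A →
    (¬ ∃ s, IsBirationalSection k K s) ∧ ConjectureFor k K

section proof

open Pool.Agent.V7H8.QS

theorem general : GeneralStatement.{u, v, w} := by
  intro k F Ω _ _ _ _ _ _ _ _ h2 E _ M hE hM hs n A hA
  obtain ⟨s⟩ := hs
  have hcl : IsAlgClosed Ω := IsAlgClosure.isAlgClosed F
  obtain ⟨x, hx, hx'⟩ := hA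
  have key := form_of_diag (k := k) (F := F) h2 (fun n a x hx hs' => diag_of_seq
    (fun n a x hx0 hn => isotropic_root (E := E) (M := M) (Ω := Ω) h2
      (fun y hy => ⟨⟨y, hE hy⟩, rfl⟩) (fun y hy => ⟨⟨y, hM hy⟩, rfl⟩)
      ⟨s.toHom, s.cont, fun σ c z hz => s.compat σ c z hz⟩ n a x hx0 hn) n a x hx hs') n A x hx hx'
  obtain ⟨y, hy, hy'⟩ := key
  exact ⟨y, hy, by simpa using hy'⟩

theorem open_curves : OpenStatement.{u, v, w} := by
  intro k F Ω _ _ _ _ _ _ _ _ _ n a x U hx0 hx hU hk
  refine ⟨fun s => hk ?_⟩
  have hcl : IsAlgClosed Ω := IsAlgClosure.isAlgClosed F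
  have h2 : (2 : k) ≠ 0 := two_ne_zero
  have hUk : ∀ O ∈ U, ∀ c : k, algebraMap k F c ∈ O := fun O hO => (hU O hO).1
  classical
  let a' : ℕ → k := fun i => if h : i < n then a ⟨i, h⟩ else 0
  let x' : ℕ → F := fun i => if h : i < n then x ⟨i, h⟩ else 0
  have hps : ∀ j, j ≤ n → Spl.psum a' x' j = partialSum a x j := by
    intro j hj
    unfold Spl.psum partialSum
    symm
    refine Finset.sum_bij (fun i _ => (i : ℕ)) ?_ ?_ ?_ ?_
    · intro i hi
      simpa using hi
    · intro i _ i' _ h
      exact Fin.ext h
    · intro i hi
      have hi' : i < j := by simpa using hi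
      exact ⟨⟨i, by omega⟩, by simpa using hi', rfl⟩
    · intro i _
      simp [a', x']
  obtain ⟨i, hi⟩ := Function.ne_iff.1 hx0
  have hgood := good_unr (k := k) (F := F) (Ω := Ω) h2 hUk
  let s' : Spl k (algebraicClosure k Ω) F (Pool.Agent.V7H8.QS.unramified F Ω U) Ω :=
    ⟨s.toHom, s.cont, fun σ c z hz => s.compat σ c z hz⟩
  have hgal : IsGalois k (algebraicClosure k Ω) := ⟨⟩
  obtain ⟨y, ⟨j, hj, hyj⟩, hy⟩ := s'.isotropic hgood h2 n a' x' (by
      intro i hi
      have h3 : x' i = x ⟨i, hi⟩ := by simp [x', hi]
      rw [h3]
      refine ⟨IntermediateField.algebraMap_mem _ _, fun W hW => ?_⟩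
      rw [mem_of_comap]
      exact (hU _ hW).2.1 _)
    ⟨i, i.2, by simpa [x'] using hi⟩ (by
      intro j hj
      by_cases hj0 : j = 0
      · left
        rw [hj0]
        simp [Spl.psum]
      · right
        rw [hps j hj.le]
        intro v hv
        have hunit : ∀ W : ValuationSubring Ω, W.comap (algebraMap F Ω) ∈ U →
            v ^ 2 ∈ W ∧ (v ^ 2)⁻¹ ∈ W := by
          intro W hW
          obtain ⟨h4, h5, h6⟩ := (hU _ hW).2.2 j (Nat.pos_of_ne_zero hj0) hj
          constructor
          · rw [hv, mem_of_comap]
            exact h5
          · rw [hv, ← map_inv₀, mem_of_comap]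
            exact h6
        have h7 : v ^ 2 ∈ intRing F Ω U := by
          refine ⟨?_, fun W hW => (hunit W hW).1⟩
          rw [hv]
          exact IntermediateField.algebraMap_mem _ _
        have h8 : (v ^ 2)⁻¹ ∈ intRing F Ω U := by
          refine ⟨?_, fun W hW => (hunit W hW).2⟩
          rw [hv, ← map_inv₀]
          exact IntermediateField.algebraMap_mem _ _
        have h9 : v ∈ intRing F Ω U := intRing_root h2 hUk h7 h8
        have h10 : v⁻¹ ∈ intRing F Ω U := by
          refine intRing_root h2 hUk ?_ ?_
          · rw [inv_pow]
            exact h8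
          · rw [inv_pow, inv_inv]
            exact h7
        exact ⟨h9, h10⟩) (by
      rw [hps n le_rfl]
      unfold partialSum
      rw [← hx]
      refine Finset.sum_congr ?_ fun _ _ => rfl
      ext i
      simp)
  refine ⟨fun i => y i, Function.ne_iff.2 ⟨⟨j, hj⟩, hyj⟩, ?_⟩
  rw [Finset.sum_range] at hy
  have h11 : ∀ i : Fin n, ∑ j, algebraMap k k (Matrix.diagonal a i j) * y i * y j =
      a' i * y i ^ 2 := by
    intro i
    rw [Finset.sum_eq_single i]
    · simp [a']
      ring
    · intro j _ hji
      rw [Matrix.diagonal_apply_ne _ hji.symm]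
      simp
    · intro h
      exact absurd (Finset.mem_univ _) h
  rw [Finset.sum_congr rfl fun i _ => h11 i]
  exact hy

theorem conjecture : ConjectureStatement.{u, v} := by
  intro k K _ _ _ _ n A hK hk
  have hno : ¬ ∃ s, IsBirationalSection k K s := by
    rintro ⟨s, hs, hs'⟩
    have hgal : IsGalois k (algebraicClosure k (AlgebraicClosure K)) := ⟨⟩
    have h2 : (2 : k) ≠ 0 := two_ne_zero
    obtain ⟨x, hx, hx'⟩ := hK
    have key := form_of_diag (k := k) (F := K) h2 (fun n a x hx hs'' => diag_of_seq
      (fun n a x hx0 hn => isotropic_root (E := algebraicClosure k (AlgebraicClosure K))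
        (M := AlgebraicClosure K) (Ω := AlgebraicClosure K) h2
        (fun y hy => ⟨⟨y, mem_algebraicClosure_iff.2 (isAlgebraic_root1 hy)⟩, rfl⟩)
        (fun y hy => ⟨y, rfl⟩)
        ⟨s, hs, fun σ c z hz => by
          have h3 : z = (c : AlgebraicClosure K) := hz
          rw [h3]
          exact hs' σ c⟩ n a x hx0 hn) n a x hx hs'') n A x hx hx'
    obtain ⟨y, hy, hy'⟩ := key
    exact hk ⟨y, hy, by simpa using hy'⟩
  exact ⟨hno, fun s hs => absurd ⟨s, hs⟩ hno⟩

end proof

/-- **Theorem.** (1) Let `k` be a field of characteristic different from 2, `F` an extension field,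
`Ω` an algebraic closure of `F`, `E ⊆ Ω` a Galois extension of `k` which contains the square roots of
the elements of `k`, and `M ⊆ Ω` an extension of `F` which contains the square roots of the elements
of the field generated over `F` by the square roots of the elements of `F`.  If there is a section of
`Gal(M/F) → Gal(E/k)`, then every quadratic form over `k` (in any number of variables) which has a
nontrivial zero over `F` has one over `k`.  (2) Let `k` have characteristic zero, let
`a_1, …, a_n ∈ k` be such that `∑ a_i X_i²` has no nontrivial zero over `k`, and let `x_i ∈ F`, not all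
`0`, with `∑ a_i x_i² = 0`.  If `U` is a set of valuation rings of `F` which contain `k`, such that the
`x_i` are in these rings and the sums `∑_(i ≤ j) a_i x_i²`, `1 ≤ j < n`, are units of these rings, then
`π₁(U) → G_k` has no section.  (3) If `k` has characteristic zero and some quadratic form over `k`
has a nontrivial zero over the extension field `K` but not over `k`, then there is no section of
`Gal(K) → Gal(k)`, and the assertion of the birational section conjecture holds for `K`. -/
theorem result : GeneralStatement.{u, v, w} ∧ OpenStatement.{u, v, w} ∧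
    ConjectureStatement.{u, v} :=
  ⟨general, open_curves, conjecture⟩

end Pool.Agent.Results.MP_8312c9_nt.AnisotropicQuadricsH8
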