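import Pool.Agent.V7H38.BS.Sec
import Pool.Agent.V7H38.BS.Inst
import Pool.Agent.V7H38.BS.Odd
import Pool.Agent.Results.MP_8312c9_nt.ThinTwistedCoverings

/-!
# The birational section conjecture for twists of cyclic coverings by the values of polynomials

Notation as in the starting result `ThinTwistedCoverings`: `D : b y ^ n = ∏ k, g k (z)` is a curve over `ℚ`,
`h` a polynomial with integral coefficients, coprime to the `g k`, and for an integer `a` and `m ≥ 2`, `m ∣ deg h`,

  `C a : b y ^ n = ∏ k, g k (z)`, `a x ^ m = h (z)`,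

a cyclic covering of `D`; for different `a` these coverings are twists of each other. We consider all sections `s` of
`Gal(Ω/F) → G_ℚ`, where `F` is the function field of `C a` or of a variety with a dominant map to it, which are geometric
over the completions of `ℚ` at the finite places (by the theorem of Koenigsmann all sections have this property).

The starting result is on sequences `a = a(t)` which are uniformly distributed modulo all integers. Here
`a = F(u(t))` is the value of a polynomial `F` with integral coefficients, for instance `t ^ 3 + 2`, `t (t + 1)`,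
`t ^ 2 + 1`, or `p - 1`, `p ^ 2 + p + 1` for the prime numbers `p`. These values are NOT uniformly distributed, and they
are divisible by primes of certain classes only. The condition on the sequence `u(t)`, `t ∈ S N ⊆ (N, 2 N]`, is
(`Regular S u A`): it has a limiting distribution modulo all integers, which is multiplicative and has density at least
`c / p ^ 2` in all classes `ρ` modulo `p ^ 2` for which a fixed polynomial `A` does not vanish modulo `p`.

**Definition.** A class `δ` is persistent relative to `F` (and `A`) if every automorphism `σ` of the field of algebraic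
numbers which fixes a simple zero `θ` of `F`, `A(θ) ≠ 0`, fixes a zero `β` of `h` and solutions `y k` of
`g k (β) = δ k * y k ^ n` (all `k`).

**Theorem.** Let `u` be regular along `S N` and `S' N`. There is ONE set `E` of natural numbers, of density zero relative
to `S N` and to `S' N`, such that for ALL polynomials `F` and ALL `D`, `h` the following is true.

(1) For all but finitely many `t ∉ E` and all `m ≥ 2`, `m ∣ deg h`, all the sections over `C (F(u(t)))` have a class
which is persistent relative to `F`. If there are no such classes, there are no sections.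

(2) Let `D : y² = (z² + 51) (z² - 1)` and `h = (z² + 1) (z² - 17) (z² + 17)`. If `F` has a simple zero `θ` of odd
degree over `ℚ`, `A(θ) ≠ 0`, then for all but finitely many `t ∉ E` there are no sections over `C (F(u(t)))`,
`m ∈ {2, 3, 6}`, although all the curves `C a` have points over `ℝ` and all `ℚ_p`.

(3) Let `n = 2`, let `F` have a simple zero `θ`, `A(θ) ≠ 0`, and suppose that every class which is persistent relative to
`F` is the class of a rational zero `α` of `h` and that for some set `T` of indices the product `f = ∏ g k`, `k ∈ T`, is a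
quartic polynomial with a rational zero for which `f(α) y² = f(z)` is an elliptic curve with only finitely many rational
points, whose Tate-Shafarevich group is killed by a positive integer, for all integral zeros `α` of `h`. Then for all but
finitely many `t ∉ E` the birational section conjecture holds for the curves `C (F(u(t)))` and their coverings: every
section arises from exactly one rational point, and `x = 0` there.

(4) If `F` has a simple rational zero `r`, `A(r) ≠ 0`, then persistent relative to `F` is the same as persistent. The same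
is true if `n = 2`, `F` has a simple zero `θ` of odd degree, `A(θ) ≠ 0`, and `β ^ 2` and `g k (β)` are rational for all
zeros `β` of `h` (for instance if all zeros of `h` are rational).

(5) Regular are: the sequence `u(t) = t` along all integers (every `A`); the sequence `u(t) = t` along the primes
(`A = X`); the integral parts of generalised polynomials with positive non-integral leading exponent and positive leading
coefficient, along all integers and along the primes (every `A`).

Proof. For a class `δ` which is not persistent relative to `F` there is an automorphism `σ` which fixes a simple zero `θ` of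
`F` but no zero of `h` together with solutions `y k`. By Chebotarev's theorem there is a set of primes `p` with divergent
sum of the `1 / p` modulo which there are no points of class `δ` over the zeros of `h` and `F` has a simple zero modulo
`p`, not a zero of `A`. By Hensel's argument the density of the `t` for which `p` divides `F(u(t))` exactly once is at
least `c / (2 p)`, and these events are independent in pairs; by the second moment method almost all `F(u(t))` are divisible
exactly once by a prime of this set. At such a prime the points of `C (F(u(t)))` over `ℚ_p` reduce to the zeros of `h`. For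
the primes we use the prime number theorem in arithmetic progressions.
-/

set_option autoImplicit false

namespace Pool.Agent.Results.MP_8312c9_nt.PolynomialTwistsH38

open Polynomial Pool.Agent.R925.FD Pool.Agent.TH954 Pool.Agent.TH942
open Pool.Agent.Results.MP_8312c9_nt.ThinTwistedCoverings (Admissible NoSections NullIn Generalised value)
open Pool.Agent.V7H38.BS (Regular SimpleZero PersistentOver SectionsPersistentOver OnlyZerosOver)

theorem result :
    (∀ (u : ℕ → ℤ) (A : ℤ[X]) (S S' : ℕ → Finset ℕ), (∀ N, S N ⊆ Finset.Ioc N (2 * N)) →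
      (∀ N, S' N ⊆ Finset.Ioc N (2 * N)) → Regular S u A → Regular S' u A →
      ∃ E : Set ℕ, NullIn S E ∧ NullIn S' E ∧ ∀ F : ℤ[X],
        -- (1)
        (∀ (K : Type) [Fintype K] (n : ℕ) (b : ℤ) (g : K → ℤ[X]) (h : ℤ[X]), Admissible n b g h →
          {t : ℕ | t ∉ E ∧ ∃ m, 2 ≤ m ∧ m ∣ h.natDegree ∧
            ¬ SectionsPersistentOver F A n m b (F.eval (u t)) g h}.Finite ∧
          ((∀ δ, IsClass n b δ → ¬ PersistentOver F A n g h δ) →
            {t : ℕ | t ∉ E ∧ ∃ m, 2 ≤ m ∧ m ∣ h.natDegree ∧
              ¬ NoSections n m b (F.eval (u t)) g h}.Finite)) ∧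
        -- (2)
        ((∃ θ, SimpleZero F A θ ∧ Odd (minpoly ℚ θ).natDegree) →
          {t : ℕ | t ∉ E ∧ ∃ m, 2 ≤ m ∧ m ∣ exh.natDegree ∧
            ¬ NoSections 2 m 1 (F.eval (u t)) exg exh}.Finite) ∧
        -- (3)
        ((∃ θ, SimpleZero F A θ) → ∀ (K : Type) [Fintype K] (b : ℤ) (g : K → ℤ[X]) (h : ℤ[X]),
          Admissible 2 b g h → OnlyZerosOver F A b g h → ∀ (M₀ : ℕ) (T : Finset K), 1 ≤ M₀ →
          (∀ α : ℤ, h.eval α = 0 → EllipticFactor (∏ k ∈ T, g k) α M₀) →
          {t : ℕ | t ∉ E ∧ ∃ m, 2 ≤ m ∧ m ∣ h.natDegree ∧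
            ¬ SectionsFromZeros 2 m b (F.eval (u t)) g h}.Finite)) ∧
    -- the curves of (2) have points everywhere locally
    (∀ (a : ℤ) (m : ℕ), m ≠ 0 → CurveHasPoint 2 m 1 a exg exh ℝ ∧
      ∀ (p : ℕ) [Fact p.Prime], CurveHasPoint 2 m 1 a exg exh ℚ_[p]) ∧
    -- (4)
    (∀ (F A : ℤ[X]) (r : ℚ), SimpleZero F A (r : AlgebraicClosure ℚ) →
      ∀ (K : Type) (n : ℕ) (g : K → ℤ[X]) (h : ℤ[X]) (δ : K → ℚ),
        PersistentOver F A n g h δ ↔ Persistent n g h δ) ∧
    (∀ (F A : ℤ[X]) (θ : AlgebraicClosure ℚ), SimpleZero F A θ → Odd (minpoly ℚ θ).natDegree →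
      ∀ (K : Type) [Fintype K] (g : K → ℤ[X]) (h : ℤ[X]), h ≠ 0 →
        (∀ β : AlgebraicClosure ℚ, aeval β h = 0 → (∃ q : ℚ, β ^ 2 = (q : AlgebraicClosure ℚ)) ∧
          ∀ k, ∃ q : ℚ, aeval β (g k) = (q : AlgebraicClosure ℚ)) →
        ∀ δ : K → ℚ, (∀ k, δ k ≠ 0) → (PersistentOver F A 2 g h δ ↔ Persistent 2 g h δ)) ∧
    -- (5)
    (∀ A, Regular (fun N => Finset.Ioc N (2 * N)) (fun t => (t : ℤ)) A) ∧
    Regular (fun N => (Finset.Ioc N (2 * N)).filter Nat.Prime) (fun t => (t : ℤ)) X ∧
    (∀ (I : Finset ℝ) (α : ℝ → ℝ) (θ : ℝ), Generalised I α θ → ∀ A,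
      Regular (fun N => Finset.Ioc N (2 * N)) (value I α) A ∧
      Regular (fun N => (Finset.Ioc N (2 * N)).filter Nat.Prime) (value I α) A) := by
  classical
  refine ⟨?_, fun a m hm => ⟨ex_real m hm a, fun p _ => ex_padic m hm a p⟩,
    fun F A r hr K n g h δ => ⟨Pool.Agent.V7H38.BS.pers_rat hr, Pool.Agent.V7H38.BS.pers_over F A⟩,
    fun F A θ hθ hodd K _ g h hh hsq δ hδ => ⟨Pool.Agent.V7H38.BS.pers_odd hθ hodd hh hsq hδ,
      Pool.Agent.V7H38.BS.pers_over F A⟩,
    fun A => Pool.Agent.V7H38.BS.regular_of_eqd Pool.Agent.V7H38.BS.eqd_int A,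
    Pool.Agent.V7H38.BS.regular_primes, fun I α θ h A =>
      ⟨Pool.Agent.V7H38.BS.regular_of_eqd (Pool.Agent.N92.TC.eqd_fl h).1 A,
        Pool.Agent.V7H38.BS.regular_of_eqd (Pool.Agent.N92.TC.eqd_fl h).2 A⟩⟩
  intro u A S S' hS hS' hu hu'
  obtain ⟨E, e1, e2, e3⟩ := Pool.Agent.V7H38.BS.one hS hS' hu hu'
  refine ⟨E, e1, e2, fun F => ?_⟩
  have hrich := e3 F
  have hno : ∀ (K : Type) [Fintype K] (n : ℕ) (b : ℤ) (g : K → ℤ[X]) (h : ℤ[X]),
      Admissible n b g h → (∀ δ, IsClass n b δ → ¬ PersistentOver F A n g h δ) →
      {t : ℕ | t ∉ E ∧ ∃ m, 2 ≤ m ∧ m ∣ h.natDegree ∧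
        ¬ NoSections n m b (F.eval (u t)) g h}.Finite := by
    intro K _ n b g h hA hnp
    refine (Pool.Agent.V7H38.BS.sec_main hrich hA.n_pos hA.b_ne hA.g_ne hA.h_ne hA.deg hA.coprime
      hA.coprime_h).subset ?_
    rintro t ⟨htE, m, hm, hmh, hns⟩
    refine ⟨htE, m, hm, hmh, fun hP => hns ?_⟩
    intro F' Ω B _ _ _ _ _ _ _ _ _ _ z x y hz hy hx ⟨s, hs⟩
    obtain ⟨δ, h3, -, h4⟩ := hP F' Ω B z x y hz hy hx s hs
    exact hnp δ h3 h4
  refine ⟨fun K _ n b g h hA => ⟨?_, hno K n b g h hA⟩, ?_, ?_⟩
  · exact Pool.Agent.V7H38.BS.sec_main hrich hA.n_pos hA.b_ne hA.g_ne hA.h_ne hA.deg hA.coprime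
      hA.coprime_h
  · rintro ⟨θ, hθ, hodd⟩
    exact hno _ 2 1 exg exh ⟨by norm_num, one_ne_zero, exg_ne, exh_ne,
      fun k => by rw [exg_deg k], exg_coprime, exgh_coprime⟩
      (fun δ hδ hp => ex_not_persistent δ (hδ.1 0)
        (Pool.Agent.V7H38.BS.pers_odd hθ hodd exh_ne Pool.Agent.V7H38.BS.ex_sq hδ.1 hp))
  · intro hθ K _ b g h hA hOZ M₀ T hM₀ hT
    exact Pool.Agent.V7H38.BS.fromZeros hθ hrich hA.b_ne hA.g_ne hA.h_ne hA.deg hA.coprime
      hA.coprime_h hOZ hM₀ T hT

end Pool.Agent.Results.MP_8312c9_nt.PolynomialTwistsH38
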