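import Pool.Agent.V7H43.BS.Gen

/-!
# The birational section conjecture for curves with a nonconstant map to a twisted constant curve

Let `K` be a field finitely generated over `ℚ` and `X` a curve over `K` with function field `L`. Let
`K'` be a finite extension of `K` which is a field of rational functions `k(ρ)` over some finitely
generated field `k`, and `C` a superelliptic curve `Y^q = f(X)` of genus at least one over `k`
(`q` prime, `f` separable). If there is a map `P` over `K'` from `X` to `C` which is moved by an
automorphism `σ` of `K' / K` which is trivial on `k`, then every section of the map from the absolute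
Galois group of `L` to that of `K` arises from exactly one rational point of `X`: the birational
section conjecture holds for `X` over `K`. There is no hypothesis on ranks or Tate-Shafarevich groups.

Examples are proved below. For `K = k(t)`, the birational section conjecture holds for each curve with
a nonconstant map to a curve `t y^n = f(x)` (theorem `twists`), for instance the universal quadratic
twist of an elliptic or hyperelliptic curve over `k`, or to a curve `α u^l + β v^m = t` (theorem
`trinomials`), for instance the curves `α u^n + β v^n = t`, `n ≥ 3`; and for `K = k(a_0, ..., a_d)`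
with independent variables `a_i` it holds for each curve with a nonconstant map to the generic
superelliptic curve `y^n = a_d x^d + ... + a_0` (theorem `generic`).

Proof. Let `κ` be the algebraic closure of `k` in an algebraic closure of `K'`. The Galois group of `K`
acts on `C(Ω)`, `Ω` an algebraic closure of `L`, through the section, and `P` is fixed by the Galois
group `H` of `κ(ρ)`. (1) Kummer theory. If `q` does not divide the degree of `f = c ∏ (X - e_i)`, the
functions `x - e_i` are `q`-th powers up to unramified extensions of the function field of `C`. For
a function `w` with `w^n = u` (`u = x - e_i`, `n = q`, or the coordinates of `R` with `N R = P` for an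
elliptic curve `C`) which gives an unramified extension, `h w / w` is trivial for `h` in `H`: otherwise
by Kummer theory some `v` with `v^ℓ = ∏ (ρ - a)^(m_a)`, not in `κ(ρ)`, is fixed by the kernel. There
are two embeddings of the algebraic closure of `K` in the algebraic closure of `ℚ_p`, for some large
`p`, which map `k'(ρ)`, for a finite extension `k'` of `k`, to `ℚ_p`, agree on `κ` and such that
`∏ (ρ - a)^(m_a)` has valuation prime to `ℓ` for the first one and `0` for the second one. By
Koenigsmann's theorem the section is given by a point over `ℚ_p` for both of them, and by good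
reduction an inertia element acts trivially on `w`; the product of the elements given by an inertia
element and its inverse for the two embeddings is in `H` and moves `v`, a contradiction. (2) So the
functions `w_i` with `w_i^q = x - e_i` are fixed by `H`. This gives maps fixed by `H` to curves
`y^2 = x^q - δ`, and in the same way from there to elliptic curves over `κ`, one of which is moved by
`σ`. So one may suppose that `C` is an elliptic curve. (3) By (1) `P` is divisible by all `N` in the
points fixed by `H`, and as `σ` is trivial on `κ`, `P - σ P` is divisible by all `N` in the points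
fixed by the Galois group of `k'(ρ)` for a finite extension `k'` of `k`. So for every embedding of
`k'(ρ)` in the completion of a number field, the local point given by the section is in the finite set
where `P` and `σ P` agree. (4) The finitely many values of a function at these local points are
algebraic over `K`. For every finite set without rational points there is an embedding in a completion
of a number field, and a power basis, that show that it does not contain all the values. A limit of
the local places over an ultrafilter is a rational place of `L`, from which the section comes; the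
descent from finite extensions of `K` uses that the stable valuation ring is unique.
-/

set_option autoImplicit false

namespace Pool.Agent.Results.MP_8312c9_nt.UniversalTwistsH43

open Pool.Agent.TH954

/-- Let `K` be a finitely generated field of characteristic zero and `L` an extension of `K` of
transcendence degree one. Let `K' = k(t)` be a finite extension of `K` which is the field of rational
functions over a finitely generated field `k`, `L' = L K'`, and `τ` an automorphism of `L'` over `L`
which maps `K'` to itself and is trivial on `k`. Let `q` be a prime, `f` in `k[X]` a separable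
polynomial of degree at least two, `(q, deg f) ≠ (2, 2)`, and `x`, `y` in `L'` with `y^q = f(x)` and
`(τ x, τ y) ≠ (x, y)`. Let `Ω` be an algebraic closure of `L` and `B` one of `K`. Every section of
`Gal(Ω/L) → Gal(B/K)` arises from exactly one rational point. -/
theorem result (k K L K' L' Ω B : Type) [Field k] [CharZero k] [Field K] [CharZero K] [Field L]
    [Field K'] [Field L'] [Field Ω] [Field B]
    [Algebra K L] [Algebra L Ω] [Algebra K Ω] [Algebra K B] [IsScalarTower K L Ω]
    [IsAlgClosure L Ω] [IsAlgClosure K B] (hK : (⊤ : IntermediateField ℚ K).FG)
    (hL : ∃ z : L, Transcendental K z ∧ Algebra.IsAlgebraic (IntermediateField.adjoin K {z}) L)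
    [Algebra K K'] [FiniteDimensional K K'] [Algebra K' L'] [Algebra L L'] [Algebra K L']
    [IsScalarTower K K' L'] [IsScalarTower K L L']
    (hL' : IntermediateField.adjoin L (Set.range (algebraMap K' L')) = ⊤)
    [Algebra k K'] (hk : (⊤ : IntermediateField ℚ k).FG) (t : K') (ht : Transcendental k t)
    (hK' : IntermediateField.adjoin k {t} = ⊤)
    (τ : L' ≃ₐ[L] L') (hτ : ∀ c : K', ∃ c' : K', τ (algebraMap K' L' c) = algebraMap K' L' c')
    (hτk : ∀ c : k, τ (algebraMap K' L' (algebraMap k K' c)) = algebraMap K' L' (algebraMap k K' c))
    (q : ℕ) (hq : q.Prime) (f : Polynomial k) (hf : f.Separable) (hd : 2 ≤ f.natDegree)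
    (hqd : q ≠ 2 ∨ f.natDegree ≠ 2) (x y : L')
    (hxy : y ^ q = f.eval₂ ((algebraMap K' L').comp (algebraMap k K')) x)
    (hmv : τ x ≠ x ∨ τ y ≠ y) (s : GalSection K L Ω B) :
    ∃! O : ValuationSubring L, s.ArisesFrom O :=
  Pool.Agent.V7H43.BS.ext_main hK hL hL' hk ht hK' τ hτ hτk hq hf hd hqd hxy hmv s

/-- Example 1. Let `k` be a finitely generated field of characteristic zero, `K = k(t)`, `n ≥ 2` and
`f` in `k[X]` a separable polynomial of degree at least two, `(n, deg f) ≠ (2, 2)`. The birational
section conjecture holds for each curve with a nonconstant map to the curve `t y^n = f(x)`. -/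
theorem twists (k K L Ω B : Type) [Field k] [CharZero k] [Field K] [Field L] [Field Ω] [Field B]
    [Algebra k K] [Algebra K L] [Algebra L Ω] [Algebra K Ω] [Algebra K B] [IsScalarTower K L Ω]
    [IsAlgClosure L Ω] [IsAlgClosure K B] (hk : (⊤ : IntermediateField ℚ k).FG)
    (t : K) (ht : Transcendental k t) (hK : IntermediateField.adjoin k {t} = ⊤)
    (hL : ∃ z : L, Transcendental K z ∧ Algebra.IsAlgebraic (IntermediateField.adjoin K {z}) L)
    (n : ℕ) (hn : 2 ≤ n) (f : Polynomial k) (hf : f.Separable) (hd : 2 ≤ f.natDegree)
    (hnd : n ≠ 2 ∨ f.natDegree ≠ 2) (x y : L) (hy : y ≠ 0)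
    (hxy : algebraMap K L t * y ^ n = f.eval₂ ((algebraMap K L).comp (algebraMap k K)) x)
    (s : GalSection K L Ω B) :
    ∃! O : ValuationSubring L, s.ArisesFrom O := by
  have : CharZero K := charZero_of_injective_algebraMap (algebraMap k K).injective
  exact Pool.Agent.V7H43.BS.twist_main hk ht hK hL hn hf hd hnd hy hxy s

/-- Example 2. Let `k` be a finitely generated field of characteristic zero, `K = k(t)`, `l, m ≥ 2`,
`(l, m) ≠ (2, 2)` and `α`, `β` in `k` not zero. The birational section conjecture holds for each curve
with a nonconstant map to the curve `α u^l + β v^m = t`. -/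
theorem trinomials (k K L Ω B : Type) [Field k] [CharZero k] [Field K] [Field L] [Field Ω] [Field B]
    [Algebra k K] [Algebra K L] [Algebra L Ω] [Algebra K Ω] [Algebra K B] [IsScalarTower K L Ω]
    [IsAlgClosure L Ω] [IsAlgClosure K B] (hk : (⊤ : IntermediateField ℚ k).FG)
    (t : K) (ht : Transcendental k t) (hK : IntermediateField.adjoin k {t} = ⊤)
    (hL : ∃ z : L, Transcendental K z ∧ Algebra.IsAlgebraic (IntermediateField.adjoin K {z}) L)
    (l m : ℕ) (hl : 2 ≤ l) (hm : 2 ≤ m) (hlm : l ≠ 2 ∨ m ≠ 2) (α β : k) (hα : α ≠ 0) (hβ : β ≠ 0)
    (u v : L)
    (huv : algebraMap K L (algebraMap k K α) * u ^ l + algebraMap K L (algebraMap k K β) * v ^ m =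
      algebraMap K L t)
    (s : GalSection K L Ω B) :
    ∃! O : ValuationSubring L, s.ArisesFrom O := by
  have : CharZero K := charZero_of_injective_algebraMap (algebraMap k K).injective
  exact Pool.Agent.V7H43.BS.tri_main hk ht hK hL hl hm hlm hα hβ huv s

/-- Example 3. Let `k` be a finitely generated field of characteristic zero, `K = k(a_0, ..., a_d)`
with independent variables `a_i`, `n, d ≥ 2` and `(n, d) ≠ (2, 2)`. The birational section conjecture
holds for each curve with a nonconstant map to the generic superelliptic curve
`y^n = a_d x^d + ... + a_0`, for instance (`n = 2`) for the generic hyperelliptic curves. -/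
theorem generic (k K L Ω B : Type) [Field k] [CharZero k] [Field K] [Field L] [Field Ω] [Field B]
    [Algebra k K] [Algebra K L] [Algebra L Ω] [Algebra K Ω] [Algebra K B] [IsScalarTower K L Ω]
    [IsAlgClosure L Ω] [IsAlgClosure K B] (hk : (⊤ : IntermediateField ℚ k).FG)
    (d : ℕ) (a : Fin (d + 1) → K) (ha : AlgebraicIndependent k a)
    (hK : IntermediateField.adjoin k (Set.range a) = ⊤)
    (hL : ∃ z : L, Transcendental K z ∧ Algebra.IsAlgebraic (IntermediateField.adjoin K {z}) L)
    (n : ℕ) (hn : 2 ≤ n) (hd : 2 ≤ d) (hnd : n ≠ 2 ∨ d ≠ 2) (x y : L) (hy : y ≠ 0)
    (hxy : y ^ n = ∑ i : Fin (d + 1), algebraMap K L (a i) * x ^ (i : ℕ))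
    (s : GalSection K L Ω B) :
    ∃! O : ValuationSubring L, s.ArisesFrom O := by
  have : CharZero K := charZero_of_injective_algebraMap (algebraMap k K).injective
  exact Pool.Agent.V7H43.BS.gen_main hk ha hK hL hn hd hnd hy hxy s

end Pool.Agent.Results.MP_8312c9_nt.UniversalTwistsH43
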